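import Mathlib
import Pool.Agent.Helper11_PGL.StmtK

/-!
# ROWS: divisibility of a determinant over the valuation ring of a place
-/

open scoped TensorProduct
open PGH

universe u v w

namespace PGL.H4

/-- `Ge` for finite products -/
theorem ge_prod {L E : Type*} [Field L] [Field E] [Algebra L E] {P : Place L E} {ι : Type*}
    (s : Finset ι) (n : ι → ℤ) (f : ι → E) (h : ∀ i ∈ s, P.Ge (n i) (f i)) :
    P.Ge (∑ i ∈ s, n i) (∏ i ∈ s, f i) := by
  classical
  induction s using Finset.induction_on with
  | empty => simp
  | insert a s ha ih =>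
    rw [Finset.sum_insert ha, Finset.prod_insert ha]
    exact (h a (Finset.mem_insert_self _ _)).mul
      (ih fun i hi => h i (Finset.mem_insert_of_mem hi))

/-- a determinant whose rows are divisible -/
theorem ge_det {L E : Type*} [Field L] [Field E] [Algebra L E] {P : Place L E} {ι : Type*}
    [Fintype ι] [DecidableEq ι] (n : ι → ℤ) (A : Matrix ι ι E) (h : ∀ i j, P.Ge (n i) (A i j)) :
    P.Ge (∑ i, n i) A.det := by
  rw [Matrix.det_apply]
  refine Place.Ge.sum fun σ _ => ?_
  have h1 : P.Ge (∑ i, n (σ i)) (∏ i, A (σ i) i) :=
    ge_prod _ (fun i => n (σ i)) _ (fun i _ => h _ _)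
  rw [Equiv.sum_comp σ n] at h1
  rcases Int.units_eq_one_or (Equiv.Perm.sign σ) with hs | hs
  · rw [hs, one_smul]; exact h1
  · rw [hs, Units.neg_smul, one_smul]; exact h1.neg

/-- extension of an independent family of vectors to an invertible matrix -/
theorem exists_invertible {k : Type*} [Field k] {ι : Type*} [Fintype ι] [DecidableEq ι] {N : ℕ}
    (e : Fin N → ι → k) (he : LinearIndependent k e) :
    ∃ (G : Matrix ι ι k) (φ : Fin N → ι), Function.Injective φ ∧ IsUnit G ∧ ∀ i, G (φ i) = e i := by
  classical
  have hs : LinearIndepOn k id (Set.range e) := he.linearIndepOn_id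
  let B := Module.Basis.extend hs
  haveI : Fintype (hs.extend (Set.subset_univ (Set.range e))) := by
    have := Module.Finite.finite_basis B
    exact Fintype.ofFinite _
  have hcard : Fintype.card (hs.extend (Set.subset_univ (Set.range e))) = Fintype.card ι := by
    rw [← Module.finrank_eq_card_basis B, Module.finrank_fintype_fun_eq_card]
  let ε := Fintype.equivOfCardEq hcard
  refine ⟨Matrix.of (fun r => ((ε.symm r : _) : ι → k)),
    fun i => ε ⟨e i, Module.Basis.subset_extend hs (Set.mem_range_self i)⟩, ?_, ?_, ?_⟩
  · intro i j hij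
    have := congrArg Subtype.val (ε.injective hij)
    exact he.injective this
  · rw [← Matrix.linearIndependent_rows_iff_isUnit]
    have h1 := B.linearIndependent.comp ε.symm ε.symm.injective
    have h2 : (B ∘ ε.symm) = fun r => ((ε.symm r : _) : ι → k) := by
      funext r
      exact Module.Basis.extend_apply_self hs _
    rw [h2] at h1
    exact h1
  · intro i
    funext j
    simp

theorem rows : RowsStmt.{u} := by
  intro k E _ _ _ _ _ _ v ι _ _ N e A m he hA hm hrow
  classical
  obtain ⟨G, φ, hφ, hG, hGe⟩ := exists_invertible e he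
  set G' : Matrix ι ι E := G.map (algebraMap k E) with hG'
  have hdet : G'.det = algebraMap k E G.det := by
    rw [hG', RingHom.map_det]; rfl
  have hGdet : G.det ≠ 0 := by
    have := (Matrix.isUnit_iff_isUnit_det G).1 hG
    exact this.ne_zero
  let n : ι → ℤ := fun r => ∑ i, if φ i = r then m i else 0
  have hn : ∑ r, n r = ∑ i, m i := by
    simp only [n]
    rw [Finset.sum_comm]
    refine Finset.sum_congr rfl fun i _ => ?_
    simp
  have hentry : ∀ r j, (G' * A) r j = ∑ s, algebraMap k E (G r s) * A s j := by
    intro r j
    rw [Matrix.mul_apply]; rfl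
  have hbound : ∀ r j, v.Ge (n r) ((G' * A) r j) := by
    intro r j
    by_cases hr : ∃ i, φ i = r
    · obtain ⟨i, rfl⟩ := hr
      have hni : n (φ i) = m i := by
        simp only [n]
        rw [Finset.sum_eq_single i]
        · simp
        · intro b _ hb
          rw [if_neg]
          exact fun h => hb (hφ h)
        · simp
      rw [hni, hentry]
      have h := hrow i j
      rw [Matrix.vecMul, dotProduct] at h
      rw [hGe i]
      exact h
    · have hnr : n r = 0 := by
        simp only [n]
        refine Finset.sum_eq_zero fun i _ => ?_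
        rw [if_neg (fun h => hr ⟨i, h⟩)]
      rw [hnr, hentry]
      exact Place.Ge.sum fun s _ => (v.ge_const _).mul' (hA s j) (by omega)
  have h1 := ge_det n (G' * A) hbound
  rw [hn, Matrix.det_mul, hdet] at h1
  have h2 : A.det = algebraMap k E (G.det)⁻¹ * (algebraMap k E G.det * A.det) := by
    rw [← mul_assoc, ← map_mul, inv_mul_cancel₀ hGdet, map_one, one_mul]
  rw [h2]
  exact (v.ge_const _).mul' h1 (by omega)

end PGL.H4
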