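import Mathlib
import Pool.Agent.Helper4_PGL.Rows

/-!
# MATL: the local bound for the determinant, for an integral vector
-/

open scoped TensorProduct
open PGH

universe u v w

namespace PGL.H4

/-- the rows `e i` of a multiplication matrix -/
theorem vecMul_mulMat {k E : Type*} [Field k] [Field E] [Algebra k E] {l N δ : ℕ}
    (X : MulData k l N δ) (y : Fin (l + 1) → E) (i : Fin N) (j : Fin (X.H + δ)) :
    ∑ r, algebraMap k E (X.e i r) * mulMat X.M1 y r j =
      lin (X.p i) y * algebraMap k E (X.e' i j) := by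
  have h1 : ∀ s, ∑ r, X.e i r * X.M1 s r j = X.p i s * X.e' i j := by
    intro s
    have := congrFun (X.rel i s) j
    rw [Matrix.vecMul, dotProduct] at this
    rw [this]; simp
  have h2 : ∀ r, mulMat X.M1 y r j = ∑ s, y s * algebraMap k E (X.M1 s r j) := by
    intro r
    rw [mulMat, Matrix.sum_apply]
    rfl
  simp only [h2, Finset.mul_sum]
  rw [Finset.sum_comm]
  have h3 : ∀ s, ∑ r, algebraMap k E (X.e i r) * (y s * algebraMap k E (X.M1 s r j)) =
      y s * (algebraMap k E (X.p i s) * algebraMap k E (X.e' i j)) := by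
    intro s
    rw [← map_mul, ← h1 s, map_sum, Finset.mul_sum]
    refine Finset.sum_congr rfl fun r _ => ?_
    rw [map_mul]; ring
  rw [Finset.sum_congr rfl (fun s _ => h3 s), lin, Finset.sum_mul]
  refine Finset.sum_congr rfl fun s _ => ?_
  ring

theorem lin_deriv {k E : Type*} [Field k] [Field E] [Algebra k E] {l : ℕ} (p : Fin (l + 1) → k)
    (y : Fin (l + 1) → E) (D : Derivation ℤ E E) (hD : ∀ c : k, D (algebraMap k E c) = 0) :
    lin p (fun s => D (y s)) = D (lin p y) := by
  rw [lin, lin, map_sum]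
  refine Finset.sum_congr rfl fun s _ => ?_
  rw [D.leibniz, hD, smul_zero, add_zero, smul_eq_mul]

theorem ge_mulMat {k E : Type*} [Field k] [Field E] [Algebra k E] {l a b : ℕ}
    (M : Fin (l + 1) → Matrix (Fin a) (Fin b) k) (y : Fin (l + 1) → E) (v : Place k E) (n : ℤ)
    (h : ∀ s, v.Ge n (y s)) (i : Fin a) (j : Fin b) : v.Ge n (mulMat M y i j) := by
  rw [mulMat, Matrix.sum_apply]
  refine Place.Ge.sum fun s _ => ?_
  have : (y s • (M s).map (algebraMap k E)) i j = y s * algebraMap k E (M s i j) := rfl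
  rw [this]
  exact (h s).mul' (v.ge_const _) (by omega)

theorem matl : MatLStmt.{u} := by
  intro k E _ _ _ _ _ _ l N δ X y D v c σ hD hy hDGe hne
  classical
  obtain ⟨π, hπ0, hπ⟩ := v.exists_unif
  have hDy : ∀ s, v.Ge (-c) (D (y s)) := fun s => hDGe _ (hy s)
  let ι := Fin (X.H + δ) ⊕ Fin δ
  let A0 : Matrix ι ι E := Matrix.of (fun (i j : ι) =>
    Sum.elim (fun j => mulMat X.M1 y (finSumFinEquiv i) j)
      (fun j => mulMat X.M1 (fun s => D (y s)) (finSumFinEquiv i) (σ (Sum.inr j))) j)
  let col : ι → E := Sum.elim (fun _ => 1) (fun _ => π ^ c)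
  let A1 : Matrix ι ι E := Matrix.of (fun i j => col j * A0 i j)
  have hdet1 : A1.det = π ^ (c * δ) * A0.det := by
    have h := Matrix.det_mul_row col A0
    have h2 : (∏ i, col i) = π ^ (c * δ) := by
      rw [Fintype.prod_sum_type]
      simp only [col, Sum.elim_inl, Sum.elim_inr, Finset.prod_const_one, one_mul,
        Finset.prod_const, Finset.card_univ, Fintype.card_fin]
      rw [zpow_mul, zpow_natCast]
    rw [h2] at h
    exact h
  let e1 : Fin N → ι → k := fun i r => X.e i (finSumFinEquiv r)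
  have he1 : LinearIndependent k e1 := by
    have h := X.indep.map' (LinearEquiv.funCongrLeft k k (finSumFinEquiv (m := X.H + δ) (n := δ))).toLinearMap
      (LinearMap.ker_eq_bot.2 (LinearEquiv.injective _))
    exact h
  let m : Fin N → ℤ := fun i => max 0 (v.ord (lin (X.p i) y) - 1)
  have hlin0 : ∀ i, v.Ge 0 (lin (X.p i) y) := by
    intro i
    rw [lin]
    exact Place.Ge.sum fun s _ => (v.ge_const _).mul' (hy s) (by omega)
  have hord0 : ∀ i, 0 ≤ v.ord (lin (X.p i) y) := fun i => (v.ge_iff (hne i)).1 (hlin0 i)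
  have hint : ∀ i j, v.Ge 0 (A1 i j) := by
    intro i j
    rcases j with j | j
    · have : A1 i (Sum.inl j) = mulMat X.M1 y (finSumFinEquiv i) j := by
        simp [A1, A0, col]
      rw [this]
      exact ge_mulMat _ _ _ _ hy _ _
    · have : A1 i (Sum.inr j) =
          π ^ c * mulMat X.M1 (fun s => D (y s)) (finSumFinEquiv i) (σ (Sum.inr j)) := by
        simp [A1, A0, col]
      rw [this]
      exact (v.ge_zpow hπ0 hπ c).mul' (ge_mulMat _ _ _ _ hDy _ _) (by omega)
  have hrowA : ∀ i j, v.Ge (m i) (Matrix.vecMul (fun r => algebraMap k E (e1 i r)) A1 j) := by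
    intro i j
    rw [Matrix.vecMul, dotProduct]
    rcases j with j | j
    · have h1 : ∑ r, algebraMap k E (e1 i r) * A1 r (Sum.inl j) =
          lin (X.p i) y * algebraMap k E (X.e' i j) := by
        rw [← vecMul_mulMat X y i j, ← Equiv.sum_comp (finSumFinEquiv (m := X.H + δ) (n := δ))]
        refine Finset.sum_congr rfl fun r _ => ?_
        simp [A1, A0, col, e1]
      rw [h1]
      have h2 : v.Ge (v.ord (lin (X.p i) y)) (lin (X.p i) y) := v.ge_ord
      refine h2.mul' (v.ge_const _) ?_
      have := hord0 i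
      simp only [m]; omega
    · have h1 : ∑ r, algebraMap k E (e1 i r) * A1 r (Sum.inr j) =
          π ^ c * (D (lin (X.p i) y) * algebraMap k E (X.e' i (σ (Sum.inr j)))) := by
        rw [← lin_deriv (X.p i) y D hD, ← vecMul_mulMat X (fun s => D (y s)) i (σ (Sum.inr j)),
          ← Equiv.sum_comp (finSumFinEquiv (m := X.H + δ) (n := δ)), Finset.mul_sum]
        refine Finset.sum_congr rfl fun r _ => ?_
        simp [A1, A0, col, e1]
        ring
      rw [h1]
      have h2 : v.Ge (v.ord (lin (X.p i) y)) (lin (X.p i) y) := v.ge_ord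
      have h3 : v.Ge (v.ord (lin (X.p i) y) - 1 + -c) (D (lin (X.p i) y)) := hDGe.ge h2
      have h4 : v.Ge (-c) (D (lin (X.p i) y)) := hDGe _ (hlin0 i)
      have h5 : v.Ge (m i + -c) (D (lin (X.p i) y)) := by
        simp only [m]
        rcases le_total 0 (v.ord (lin (X.p i) y) - 1) with h | h
        · rw [max_eq_right h]; exact h3
        · rw [max_eq_left h]; exact h4.mono (by omega)
      exact (v.ge_zpow hπ0 hπ c).mul' (h5.mul' (v.ge_const _) (le_refl _)) (by omega)
  have hfin := rows k E v ι N e1 A1 m he1 hint (fun i => le_max_left _ _) hrowA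
  rw [hdet1] at hfin
  have h6 : A0.det = π ^ (-(c * δ)) * (π ^ (c * δ) * A0.det) := by
    rw [← mul_assoc, ← zpow_add₀ hπ0]; simp
  have h7 : bigDet (mulMat X.M1 y) (mulMat X.M1 (fun s => D (y s))) σ = A0.det := rfl
  rw [h7, h6]
  refine (v.ge_zpow hπ0 hπ (-(c * δ))).mul' hfin ?_
  have : (δ : ℤ) * c = c * δ := mul_comm _ _
  have hm : ∑ i, m i = ∑ i, max 0 (v.ord (lin (X.p i) y) - 1) := rfl
  omega

end PGL.H4
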